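import Pool.Agent.Helper22.SC.Rec2
import Pool.Agent.Helper66.SC.Defs

/-! # H3: the `λ_n` with `n ∈ r` are collapsed by the coding poset -/

namespace Pool.Agent.Helper81.SC

universe u

open ZFSet
open Pool.Agent.Helper66.SC
open Pool.Agent.Helper22.SC (ZCls U URel pfst psnd pfst_pair psnd_pair dom mem_dom In in_prod
  in_zfset)

/-- the shift of a subset of `ω × b` -/
noncomputable def sh (X : ZFSet.{u}) : ZFSet.{u} :=
  insert (pair ∅ ∅) (img X (fun w => pair (insert (pfst w) (pfst w)) (psnd w)))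

theorem sh_inj {b X X' : ZFSet.{u}} (hX : X ⊆ ZFSet.omega.prod b) (hX' : X' ⊆ ZFSet.omega.prod b)
    (h : sh X = sh X') : X ⊆ X' := by
  intro w hw
  obtain ⟨k, hk, y, hy, rfl⟩ := mem_prod.1 (hX hw)
  obtain ⟨n, rfl⟩ := Helper22.SC.mem_omega.1 hk
  have h1 : pair (Helper22.SC.nat (n + 1)) y ∈ sh X := by
    unfold sh
    refine mem_insert_of_mem _ (mem_img.2 ⟨_, hw, ?_⟩)
    rw [pfst_pair, psnd_pair, Helper22.SC.nat_succ]
  rw [h] at h1
  unfold sh at h1
  rw [mem_insert_iff, mem_img] at h1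
  rcases h1 with h1 | ⟨w', hw', h1⟩
  · exfalso
    have := (pair_inj.1 h1).1
    rw [← Helper22.SC.nat_zero, Helper22.SC.nat_inj] at this
    omega
  · obtain ⟨k', hk', y', hy', rfl⟩ := mem_prod.1 (hX' hw')
    obtain ⟨n', rfl⟩ := Helper22.SC.mem_omega.1 hk'
    rw [pfst_pair, psnd_pair, ← Helper22.SC.nat_succ, pair_inj, Helper22.SC.nat_inj] at h1
    obtain ⟨h1, rfl⟩ := h1
    have : n' = n := by omega
    rw [← this]
    exact hw'

theorem sh_ne (X : ZFSet.{u}) : sh X ≠ ∅ := by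
  intro h
  have : pair ∅ ∅ ∈ sh X := by unfold sh; exact mem_insert _ _
  rw [h] at this
  exact notMem_empty _ this

theorem sh_sub {b X : ZFSet.{u}} (hb : ∅ ∈ b) (hX : X ⊆ ZFSet.omega.prod b) :
    sh X ⊆ ZFSet.omega.prod b := by
  intro w hw
  unfold sh at hw
  rw [mem_insert_iff, mem_img] at hw
  rcases hw with rfl | ⟨w', hw', rfl⟩
  · rw [pair_mem_prod]
    exact ⟨omega_zero, hb⟩
  · obtain ⟨k', hk', y', hy', rfl⟩ := mem_prod.1 (hX hw')
    rw [pfst_pair, psnd_pair, pair_mem_prod]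
    exact ⟨omega_succ hk', hy'⟩

theorem sh_mem {M A : Set ZFSet.{u}} (hM : IsZF M A) {X : ZFSet.{u}} (hX : X ∈ M) : sh X ∈ M := by
  have h : U (fun M A => IsZF M A) (fun _ _ (p : ZFSet.{u}) => sh p) := by
    unfold sh
    apply_rules (transparency := .reducible) (maxDepth := 400) using is_poly
  simpa using h.closed hM (a := X) (by simp [hX])

/-- adding one element to a set which injects into `P(ω × b)` -/
theorem cardLe_insert {M A : Set ZFSet.{u}} (hM : IsZF M A) {s x b : ZFSet.{u}} (hb : ∅ ∈ b)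
    (hx : x ∈ M) (h : CardLe M s (Pow M (ZFSet.omega.prod b))) :
    CardLe M (insert x s) (Pow M (ZFSet.omega.prod b)) := by
  by_cases hxs : x ∈ s
  · have : insert x s = s := by
      ext z
      rw [mem_insert_iff]
      constructor
      · rintro (rfl | h)
        · exact hxs
        · exact h
      · exact Or.inr
    rw [this]
    exact h
  · obtain ⟨f, hf, hfun, hinj⟩ := h
    have hsh : U (fun M A => IsZF M A) (fun _ _ (p : ZFSet.{u}) => sh p) := by
      unfold sh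
      apply_rules (transparency := .reducible) (maxDepth := 400) using is_poly
    have hU : U (fun M A => IsZF M A) (fun _ _ (p : ZFSet.{u} × ZFSet.{u}) =>
        insert (pair p.1 ∅) (img p.2 (fun z => pair (pfst z) (sh (psnd z))))) := by
      apply_rules (transparency := .reducible) (maxDepth := 400) using is_poly
      exact hsh.comp (by apply_rules (transparency := .reducible) (maxDepth := 400) using is_poly)
    have hg : insert (pair x ∅) (img f (fun z => pair (pfst z) (sh (psnd z)))) ∈ M := by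
      simpa using hU.closed hM (a := (x, f)) (by simp [hx, hf])
    obtain ⟨hsub, huniq⟩ := hfun
    -- membership in the new function
    have hmem : ∀ y z, pair y z ∈ insert (pair x ∅) (img f (fun z => pair (pfst z) (sh (psnd z))))
        ↔ (y = x ∧ z = ∅) ∨ ∃ w, pair y w ∈ f ∧ z = sh w := by
      intro y z
      rw [mem_insert_iff, pair_inj, mem_img]
      refine or_congr_right ?_
      constructor
      · rintro ⟨q, hq, h⟩
        obtain ⟨y', hy', w, hw, rfl⟩ := mem_prod.1 (hsub hq)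
        rw [pfst_pair, psnd_pair, pair_inj] at h
        obtain ⟨rfl, rfl⟩ := h
        exact ⟨w, hq, rfl⟩
      · rintro ⟨w, hw, rfl⟩
        exact ⟨_, hw, by rw [pfst_pair, psnd_pair]⟩
    have hval : ∀ {y w}, pair y w ∈ f → y ∈ s ∧ w ∈ M ∧ w ⊆ ZFSet.omega.prod b := by
      intro y w h
      have := pair_mem_prod.1 (hsub h)
      exact ⟨this.1, mem_Pow.1 this.2⟩
    refine ⟨_, hg, ⟨?_, ?_⟩, ?_⟩
    · intro q hq
      have hq' := hq
      rw [mem_insert_iff, mem_img] at hq'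
      rcases hq' with rfl | ⟨q', hq', rfl⟩
      · rw [pair_mem_prod, mem_Pow]
        exact ⟨mem_insert _ _, hM.empty_mem, fun z hz => absurd hz (notMem_empty _)⟩
      · obtain ⟨y', hy', w, hw, rfl⟩ := mem_prod.1 (hsub hq')
        rw [pfst_pair, psnd_pair, pair_mem_prod, mem_Pow]
        have := hval hq'
        exact ⟨mem_insert_of_mem _ hy', sh_mem hM this.2.1, sh_sub hb this.2.2⟩
    · intro y hy
      rw [mem_insert_iff] at hy
      rcases hy with rfl | hy
      · refine ⟨∅, (hmem _ _).2 (Or.inl ⟨rfl, rfl⟩), ?_⟩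
        intro z hz
        rcases (hmem _ _).1 hz with ⟨_, h⟩ | ⟨w, hw, _⟩
        · exact h
        · exact absurd (hval hw).1 hxs
      · obtain ⟨w, hw, hw'⟩ := huniq y hy
        refine ⟨sh w, (hmem _ _).2 (Or.inr ⟨w, hw, rfl⟩), ?_⟩
        intro z hz
        rcases (hmem _ _).1 hz with ⟨rfl, h⟩ | ⟨w', hw'', h⟩
        · exact absurd hy hxs
        · rw [h, hw' w' hw'']
    · intro y hy y' hy' z h1 h2
      rcases (hmem _ _).1 h1 with ⟨rfl, h⟩ | ⟨w, hw, h⟩
      · rcases (hmem _ _).1 h2 with ⟨rfl, _⟩ | ⟨w', hw', h'⟩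
        · rfl
        · exact absurd (h'.symm.trans h) (sh_ne _)
      · rcases (hmem _ _).1 h2 with ⟨rfl, h'⟩ | ⟨w', hw', h'⟩
        · exact absurd (h.symm.trans h') (sh_ne _)
        · have e : sh w = sh w' := h.symm.trans h'
          have e1 : w = w' := subset_antisymm (sh_inj (hval hw).2.2 (hval hw').2.2 e)
            (sh_inj (hval hw').2.2 (hval hw).2.2 e.symm)
          subst e1
          exact hinj y (hval hw).1 y' (hval hw').1 w hw hw'

theorem mem_FP {M : Set ZFSet.{u}} {T J p : ZFSet.{u}} : p ∈ FP M T J ↔ p ∈ M ∧ p ⊆ T ∧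
    (∀ x y z, pair x y ∈ p → pair x z ∈ p → y = z) ∧
    (∀ s ∈ p, ∃ x y, s = pair x y) ∧ ∃ d ∈ J, ∀ x, x ∈ d ↔ ∃ y, pair x y ∈ p := by
  unfold FP
  rw [mem_sep, mem_Pow, and_assoc]

theorem mem_JJ {M : Set ZFSet.{u}} {L : ℕ → Ordinal.{u}} {d : ZFSet.{u}} : d ∈ JJ M L ↔
    d ∈ M ∧ d ⊆ ZFSet.omega.prod (oz (⨆ n, L n)) ∧
    ∀ n : ℕ, CardLe M ((oz (⨆ n, L n)).sep (fun ξ => pair (nz n) ξ ∈ d)) (ZZ M L n) := by
  unfold JJ
  rw [mem_sep, mem_Pow, and_assoc]

theorem L_lt_sup {L : ℕ → Ordinal.{u}} (hL : StrictMono L) (n : ℕ) : L n < ⨆ n, L n :=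
  lt_of_lt_of_le (hL (Nat.lt_succ_self n)) (Ordinal.le_iSup L (n + 1))

theorem nz_inj {m n : ℕ} : (nz m : ZFSet.{u}) = nz n ↔ m = n := Helper22.SC.nat_inj

theorem nz_mem_omega (n : ℕ) : (nz n : ZFSet.{u}) ∈ ZFSet.omega := Helper22.SC.nat_mem_omega n

theorem bta_mem {M : Set ZFSet.{u}} {L : ℕ → Ordinal.{u}} (hM : IsZF M ∅) (hL : LSeq M L)
    (n : ℕ) : oz (bta L n) ∈ M ∧ (∅ : ZFSet.{u}) ∈ oz (bta L n) := by
  have h0 : (∅ : ZFSet.{u}) = oz 0 := by simp
  cases n with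
  | zero =>
    constructor
    · show (Ordinal.omega0.{u}).toZFSet ∈ M
      rw [← Helper22.SC.omega_eq]
      exact hM.omega
    · rw [h0, Ordinal.toZFSet_mem_toZFSet_iff]
      exact Ordinal.omega0_pos
  | succ n =>
    constructor
    · exact (hL.sl n).1
    · rw [h0, Ordinal.toZFSet_mem_toZFSet_iff]
      exact Ordinal.omega0_pos.trans (hL.sl n).2.1

/-- adding one point to a domain -/
theorem JJ_insert {M : Set ZFSet.{u}} {L : ℕ → Ordinal.{u}} (hM : IsZF M ∅) (hL : LSeq M L)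
    {d ξ : ZFSet.{u}} (hd : d ∈ JJ M L) (n : ℕ) (hξ : ξ ∈ oz (⨆ n, L n)) (hξM : ξ ∈ M) :
    insert (pair (nz n) ξ) d ∈ JJ M L := by
  rw [mem_JJ] at hd ⊢
  obtain ⟨h1, h2, h3⟩ := hd
  have hnM : (nz n : ZFSet.{u}) ∈ M := hM.trans _ hM.omega _ (nz_mem_omega n)
  refine ⟨hM.insert_mem (hM.pair_mem hnM hξM) h1, ?_, ?_⟩
  · intro z hz
    rw [mem_insert_iff] at hz
    rcases hz with rfl | hz
    · rw [pair_mem_prod]
      exact ⟨nz_mem_omega n, hξ⟩
    · exact h2 hz
  · intro m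
    by_cases hmn : m = n
    · subst hmn
      have e : (oz (⨆ n, L n)).sep (fun ξ' => pair (nz m) ξ' ∈ insert (pair (nz m) ξ) d) =
          insert ξ ((oz (⨆ n, L n)).sep (fun ξ => pair (nz m) ξ ∈ d)) := by
        ext z
        rw [mem_sep, mem_insert_iff, mem_insert_iff, mem_sep, pair_inj]
        constructor
        · rintro ⟨h4, ⟨_, h5⟩ | h5⟩
          · exact Or.inl h5
          · exact Or.inr ⟨h4, h5⟩
        · rintro (rfl | ⟨h4, h5⟩)
          · exact ⟨hξ, Or.inl ⟨rfl, rfl⟩⟩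
          · exact ⟨h4, Or.inr h5⟩
      rw [e]
      exact cardLe_insert hM (bta_mem hM hL m).2 hξM (h3 m)
    · have e : (oz (⨆ n, L n)).sep (fun ξ' => pair (nz m) ξ' ∈ insert (pair (nz n) ξ) d) =
          (oz (⨆ n, L n)).sep (fun ξ => pair (nz m) ξ ∈ d) := by
        ext z
        rw [mem_sep, mem_insert_iff, mem_sep, pair_inj, nz_inj]
        constructor
        · rintro ⟨h4, ⟨h5, _⟩ | h5⟩
          · exact absurd h5 hmn
          · exact ⟨h4, h5⟩
        · rintro ⟨h4, h5⟩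
          exact ⟨h4, Or.inr h5⟩
      rw [e]
      exact h3 m

theorem st_H3 (hFB1 : ST_FB1.{u}) (hFB4 : ST_FB4.{u}) (hK1 : ST_K1.{u}) (hK2 : ST_K2.{u})
    (hH2 : ST_H2.{u}) : ST_H3.{u} := by
  intro M L r G hM hWO hL hr hrω hG n hn hcard
  obtain ⟨hPM, hP0, -, hκ⟩ := hH2 M L r hM hWO hL hr hrω
  obtain ⟨hκ1, hκ2⟩ := hκ n
  obtain ⟨hb1, hb2⟩ := bta_mem hM hL n
  set κ := kap M L n with hκdef
  have hlM : oz (L n) ∈ M := (hL.sl n).1
  have hκM : oz κ ∈ M := hM.trans _ hlM _ (Ordinal.toZFSet_mem_toZFSet_iff.2 hκ1)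
  have hnM : (nz n : ZFSet.{u}) ∈ M := hM.trans _ hM.omega _ (nz_mem_omega n)
  have hZM : ZZ M L n ∈ M := by
    have hU : U (fun M A => IsZF M A) (fun N _ (p : ZFSet.{u}) => Pow N (ZFSet.omega.prod p)) := by
      apply_rules (transparency := .reducible) (maxDepth := 400) using is_poly
    unfold ZZ
    simpa using hU.closed hM (a := oz (bta L n)) (by simp [hb1])
  have memP : ∀ p, p ∈ PP M L r ↔ p ∈ M ∧ p ⊆ TT M L r ∧
    (∀ x y z, pair x y ∈ p → pair x z ∈ p → y = z) ∧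
    (∀ s ∈ p, ∃ x y, s = pair x y) ∧ ∃ d ∈ JJ M L, ∀ x, x ∈ d ↔ ∃ y, pair x y ∈ p :=
    fun p => mem_FP
  -- density
  have dens : ∀ η < L n, ∃ p ∈ G, ∃ ξ < κ, pair (pair (nz n) (oz ξ)) (oz η) ∈ p := by
    intro η hη
    have hηM : oz η ∈ M := hM.trans _ hlM _ (Ordinal.toZFSet_mem_toZFSet_iff.2 hη)
    have hU : U (fun M A => IsZF M A) (fun N _ (q : (ZFSet.{u} × ZFSet.{u}) × (ZFSet.{u} × ZFSet.{u})) =>
        ZFSet.sep (fun p => ∃ x ∈ q.2.1, pair (pair q.1.2 x) q.2.2 ∈ p) q.1.1) := by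
      apply_rules (transparency := .reducible) (maxDepth := 400) using is_poly
    have hD : ZFSet.sep (fun p => ∃ x ∈ oz κ, pair (pair (nz n) x) (oz η) ∈ p) (PP M L r) ∈ M := by
      have := hU.closed hM (a := ((PP M L r, nz n), (oz κ, oz η))) (by simp [hPM, hnM, hκM, hηM])
      simpa using this
    obtain ⟨p, hpG, hpD⟩ := hG.meets _ hD (fun p hp => (mem_sep.1 hp).1) (by
      intro p hp
      obtain ⟨p1, p2, p3, p4, d, hd, p5⟩ := (memP p).1 hp
      have hd' := (mem_JJ.1 hd).2.2 n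
      -- a free coordinate
      have hfree : ∃ ξ < κ, pair (nz n) (oz ξ) ∉ d := by
        by_contra hcon
        push Not at hcon
        apply hκ2
        have hsec : (oz (⨆ n, L n)).sep (fun ξ => pair (nz n) ξ ∈ d) ∈ M := by
          obtain ⟨f, hf, hfun, -⟩ := hd'
          have : (oz (⨆ n, L n)).sep (fun ξ => pair (nz n) ξ ∈ d) = dom f := by
            ext z
            rw [mem_dom]
            constructor
            · intro hz
              obtain ⟨w, hw, _⟩ := hfun.2 z hz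
              exact ⟨w, hw⟩
            · rintro ⟨w, hw⟩
              exact (pair_mem_prod.1 (hfun.1 hw)).1
          rw [this]
          have hU : U (fun M A => IsZF M A) (fun _ _ (p : ZFSet.{u}) => dom p) := by
            apply_rules (transparency := .reducible) (maxDepth := 400) using is_poly
          simpa using hU.closed hM (a := f) (by simp [hf])
        have hsub : oz κ ⊆ (oz (⨆ n, L n)).sep (fun ξ => pair (nz n) ξ ∈ d) := by
          intro z hz
          obtain ⟨ξ, hξ, rfl⟩ := Ordinal.mem_toZFSet_iff.1 hz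
          rw [mem_sep, Ordinal.toZFSet_mem_toZFSet_iff]
          exact ⟨(hξ.trans hκ1).trans (L_lt_sup hL.mono n), hcon ξ hξ⟩
        obtain ⟨k1, k2, -⟩ := hK1 M ∅ hM
        exact k2 _ hκM _ hsec _ hZM (k1 _ hκM _ hsec hsub) hd'
      obtain ⟨ξ, hξ, hξd⟩ := hfree
      have hξM : oz ξ ∈ M := hM.trans _ hκM _ (Ordinal.toZFSet_mem_toZFSet_iff.2 hξ)
      have hξΛ : oz ξ ∈ oz (⨆ n, L n) :=
        Ordinal.toZFSet_mem_toZFSet_iff.2 ((hξ.trans hκ1).trans (L_lt_sup hL.mono n))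
      have hηΛ : oz η ∈ oz (⨆ n, L n) :=
        Ordinal.toZFSet_mem_toZFSet_iff.2 (hη.trans (L_lt_sup hL.mono n))
      refine ⟨insert (pair (pair (nz n) (oz ξ)) (oz η)) p, ?_, fun z hz => mem_insert_of_mem _ hz⟩
      rw [mem_sep]
      refine ⟨(memP _).2 ⟨?_, ?_, ?_, ?_, ?_⟩, oz ξ, Ordinal.toZFSet_mem_toZFSet_iff.2 hξ,
        mem_insert _ _⟩
      · exact hM.insert_mem (hM.pair_mem (hM.pair_mem hnM hξM) hηM) p1
      · intro z hz
        rw [mem_insert_iff] at hz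
        rcases hz with rfl | hz
        · unfold TT
          rw [mem_sep, pair_mem_prod, pair_mem_prod]
          exact ⟨⟨⟨nz_mem_omega n, hξΛ⟩, hηΛ⟩, n, ξ, η, hn, hξ, hη, rfl⟩
        · exact p2 hz
      · have hnew : ∀ z, pair (pair (nz n) (oz ξ)) z ∈ p → False := by
          intro z hz
          exact hξd ((p5 _).2 ⟨z, hz⟩)
        intro x y z hy hz
        rw [mem_insert_iff, pair_inj] at hy hz
        rcases hy with ⟨rfl, rfl⟩ | hy
        · rcases hz with ⟨_, rfl⟩ | hz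
          · rfl
          · exact (hnew _ hz).elim
        · rcases hz with ⟨rfl, rfl⟩ | hz
          · exact (hnew _ hy).elim
          · exact p3 x y z hy hz
      · intro s hs
        rw [mem_insert_iff] at hs
        rcases hs with rfl | hs
        · exact ⟨_, _, rfl⟩
        · exact p4 s hs
      · refine ⟨insert (pair (nz n) (oz ξ)) d, JJ_insert hM hL hd n hξΛ hξM, ?_⟩
        intro x
        rw [mem_insert_iff, p5]
        constructor
        · rintro (rfl | ⟨y, hy⟩)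
          · exact ⟨oz η, mem_insert _ _⟩
          · exact ⟨y, mem_insert_of_mem _ hy⟩
        · rintro ⟨y, hy⟩
          rw [mem_insert_iff, pair_inj] at hy
          rcases hy with ⟨rfl, _⟩ | hy
          · exact Or.inl rfl
          · exact Or.inr ⟨y, hy⟩)
    obtain ⟨hpP, x, hx, hxp⟩ := mem_sep.1 hpD
    obtain ⟨ξ, hξ, rfl⟩ := Ordinal.mem_toZFSet_iff.1 hx
    exact ⟨p, hpG, ξ, hξ, hxp⟩
  -- the generic extension
  have hE : IsZF (Ext M G) ∅ := hFB4 M (PP M L r) G hM hPM hG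
  obtain ⟨-, f2, -, f4, -⟩ := hFB1 M ∅ (PP M L r) G hM hPM hG
  have hκE : oz κ ∈ Ext M G := (f4 κ).2 hκM
  have hlE : oz (L n) ∈ Ext M G := (f4 _).2 hlM
  have hnE : (nz n : ZFSet.{u}) ∈ Ext M G := (f4 _).2 hnM
  have hU : U (fun M A => IsZF M A) (fun N _ (q : (ZFSet.{u} × ZFSet.{u}) × (ZFSet.{u} × ZFSet.{u})) =>
      ZFSet.sep (fun z => ∃ p ∈ q.2.2, pair (pair q.2.1 (pfst z)) (psnd z) ∈ p)
        (ZFSet.prod q.1.1 q.1.2)) := by
    apply_rules (transparency := .reducible) (maxDepth := 400) using is_poly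
  have hF : ZFSet.sep (fun z => ∃ p ∈ G, pair (pair (nz n) (pfst z)) (psnd z) ∈ p)
      (ZFSet.prod (oz κ) (oz (L n))) ∈ Ext M G := by
    have := hU.closed hE (a := ((oz κ, oz (L n)), (nz n, G))) (by simp [hκE, hlE, hnE, f2])
    simpa using this
  have hK : CardLe (Ext M G) (oz (L n)) (oz κ) := by
    refine hK2 (Ext M G) ∅ hE (oz κ) hκE (oz (L n)) hlE _ hF κ hκE
      ((hK1 _ _ hE).1 _ hκE _ hκE (fun z hz => hz)) ?_ ?_
    · intro x y z hy hz
      rw [mem_sep, pfst_pair, psnd_pair] at hy hz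
      obtain ⟨-, p, hp, hpy⟩ := hy
      obtain ⟨-, q, hq, hqz⟩ := hz
      obtain ⟨s, hs, h1, h2⟩ := hG.dir p hp q hq
      exact ((memP s).1 (hG.sub hs)).2.2.1 _ _ _ (h1 hpy) (h2 hqz)
    · intro y hy
      obtain ⟨η, hη, rfl⟩ := Ordinal.mem_toZFSet_iff.1 hy
      obtain ⟨p, hp, ξ, hξ, hpξ⟩ := dens η hη
      refine ⟨oz ξ, Ordinal.toZFSet_mem_toZFSet_iff.2 hξ, ?_⟩
      rw [mem_sep, pfst_pair, psnd_pair, pair_mem_prod]
      exact ⟨⟨Ordinal.toZFSet_mem_toZFSet_iff.2 hξ, hy⟩, p, hp, hpξ⟩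
  exact hcard.2.2 (oz κ) (Ordinal.toZFSet_mem_toZFSet_iff.2 hκ1) hK

end Pool.Agent.Helper81.SC
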